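import Pool.Agent.Y34.HB.Stm
import Pool.Agent.TH60.FP.Strip
import Pool.Agent.TH60.FP.Trans
import Pool.Agent.TH60.FP.Mid
import Pool.Agent.TH60.FP.Dist
import Pool.Agent.TH60.FP.Cen
import Pool.Agent.TH60.FP.Sel
import Pool.Agent.TH60.FP.Bnd
import Pool.Agent.TH60.FP.Close

/-!
Project HB, part END.
-/

set_option autoImplicit false

universe u v

open Metric Set Filter Topology
open Pool.Agent.TH60.FP Pool.Agent.Y34.HB

namespace Pool.Agent.Y165.HB

theorem exists_orth (k : ℕ) (hk : 2 ≤ k) (a : E k) (ha : a ≠ 0) :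
    ∃ b : E k, ‖b‖ = 1 ∧ inner ℝ a b = 0 := by
  have h1 : 0 < Module.finrank ℝ ((ℝ ∙ a)ᗮ : Submodule ℝ (E k)) := by
    have h2 := Submodule.finrank_add_finrank_orthogonal (ℝ ∙ a)
    have h3 : Module.finrank ℝ (ℝ ∙ a) = 1 := finrank_span_singleton ha
    have h4 : Module.finrank ℝ (E k) = k := finrank_euclideanSpace_fin
    omega
  obtain ⟨b, hb⟩ := Module.finrank_pos_iff_exists_ne_zero.1 h1
  have hb0 : (b : E k) ≠ 0 := fun h => hb (Subtype.ext h)
  have hbn : ‖(b : E k)‖ ≠ 0 := norm_ne_zero_iff.2 hb0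
  refine ⟨(‖(b : E k)‖)⁻¹ • (b : E k), ?_, ?_⟩
  · rw [norm_smul, norm_inv, norm_norm, inv_mul_cancel₀ hbn]
  · rw [inner_smul_right, Submodule.mem_orthogonal_singleton_iff_inner_right.1 b.2, mul_zero]

theorem t : S_END.{u, v} := by
  intro X _ G _ _ hG k hk f hf g a B ha hper
  have hdd := t_dd t_strip (t_trans t_strip) (t_mid t_strip)
  have hclose : X_CLOSE.{u, v} := t_close hdd t_cen t_sel (t_bnd hdd t_cen t_park)
  obtain ⟨b, hb1, hb2⟩ := exists_orth k hk a ha
  have han : ‖a‖ ≠ 0 := norm_ne_zero_iff.2 ha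
  set a' : E k := ‖a‖⁻¹ • a with ha'
  have ha'1 : ‖a'‖ = 1 := by
    rw [ha', norm_smul, norm_inv, norm_norm, inv_mul_cancel₀ han]
  have ha'b : inner ℝ a' b = 0 := by
    rw [ha', inner_smul_left, hb2, mul_zero]
  refine hclose X G (fun x y => f (x • a' + y • b)) g ‖a‖ B ?_
  refine ⟨hG.proper, hG.isom, hG.disc, hG.cc, hG.cn, ?_, norm_pos_iff.2 ha, ?_⟩
  · intro x y x' y'
    rw [hf.dist_eq, dist_eq_norm]
    have e : x • a' + y • b - (x' • a' + y' • b) = (x - x') • a' + (y - y') • b := by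
      module
    have h2 : inner ℝ ((x - x') • a') ((y - y') • b) = 0 := by
      rw [inner_smul_left, inner_smul_right, ha'b]
      simp
    rw [e, norm_add_sq_real, norm_smul (x - x') a', norm_smul (y - y') b, ha'1, hb1, h2,
      Real.norm_eq_abs, Real.norm_eq_abs, mul_one, mul_one, sq_abs, sq_abs]
    ring
  · intro i x y
    have h1 := hper i (x • a' + y • b)
    have e : x • a' + y • b + (i : ℝ) • a = (x + i * ‖a‖) • a' + y • b := by
      have : a = ‖a‖ • a' := by
        rw [ha', smul_smul, mul_inv_cancel₀ han, one_smul]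
      conv_lhs => rw [this]
      module
    rwa [e] at h1

end Pool.Agent.Y165.HB
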